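import Pool.Agent.R956.Z3
import Pool.Agent.R956.Z4

/-!
Self-avoiding walks on `ℤ³`: equivalent forms of the asymptotic form `c_n ∼ A μ^n n^(γ-1)` in terms
of non-intersection probabilities, and sparse sets of lengths.
-/

set_option autoImplicit false

namespace Pool.Agent.Results.MP_794e6e_pr.AmplitudeForms

open Filter Topology

/-- the number of `n`-step self-avoiding nearest-neighbour walks on `ℤ³` from `0` -/
noncomputable def C (n : ℕ) : ℕ :=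
  Nat.card {f : Fin (n + 1) → (Fin 3 → ℤ) //
    f 0 = 0 ∧ Function.Injective f ∧
    ∀ i : Fin n, ∑ j : Fin 3, |f i.succ j - f i.castSucc j| = 1}

/-- the probability that two independent uniform self-avoiding walks with `n` steps from `0` meet at
`0` only -/
noncomputable def P (n : ℕ) : ℝ := (C (2 * n) : ℝ) / (C n : ℝ) ^ 2

/-- the probability that the concatenation of three independent uniform self-avoiding walks with
`n`, `m` and `m` steps is self-avoiding -/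
noncomputable def T (n m : ℕ) : ℝ := (C (n + 2 * m) : ℝ) / ((C n : ℝ) * (C m : ℝ) ^ 2)

/-- `c_n / (μ^n n^(γ-1))` -/
noncomputable def R (μ γ : ℝ) (n : ℕ) : ℝ := (C n : ℝ) / (μ ^ n * (n : ℝ) ^ (γ - 1))

/-- **Theorem.** On `ℤ³` let `c_n` be the number of `n`-step self-avoiding walks and
`μ = lim c_n^(1/n)`. The limit exists and `77/20 ≤ μ ≤ 5`, so that `5/μ < 1.3`.
(1) Let `γ` be real, `b > 0` and `n ≥ 1`. If the probability that two independent walks with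
`m` steps meet at `0` only is at least (at most) `b m^(-(γ-1))` for all `m = 2^k n`, `k ≥ 0`, then
`c_n ≤ (2^(γ-1)/b) μ^n n^(γ-1)` (`c_n ≥ (2^(γ-1)/b) μ^n n^(γ-1)`).
(2) Let `γ` be real and `A > 0`. Then `c_n ∼ A μ^n n^(γ-1)` if and only if the probability that two
independent walks with `n` steps meet at `0` only is asymptotic to `(2^(γ-1)/A) n^(-(γ-1))`.
(3) Let moreover `0 < ε < 1/3` and let `N m` be lengths with `m ≤ (N m)^(1/3-ε)` for all large `m`.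
The probability `T` that the concatenation of walks with `N m`, `m` and `m` steps is self-avoiding
satisfies `T (c_m/μ^m)² → 1`; and `c_n ∼ A μ^n n^(γ-1)` if and only if `T` is asymptotic to
`A^(-2) m^(-2(γ-1))`.
(4) Let `S` be a set of lengths which meets `[n, n + n^(1/3-ε)]` for all large `n`, and suppose
`c_n / (μ^n n^(γ-1)) → A` along `n ∈ S`. Then for every `δ > 0` and all large `n` this quotient is
between `A / (5/μ + δ)` and `(5/μ + δ) A`; and if all elements of `S` have the same parity, then it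
converges to `A` along all `n` of this parity. -/
theorem result : ∃ μ : ℝ, 77 / 20 ≤ μ ∧ μ ≤ 5 ∧
    Tendsto (fun n : ℕ => (C n : ℝ) ^ (1 / (n : ℝ))) atTop (𝓝 μ) ∧
    (∀ γ b : ℝ, 0 < b → ∀ n : ℕ, 1 ≤ n →
      ((∀ k : ℕ, b * ((2 ^ k * n : ℕ) : ℝ) ^ (-(γ - 1)) ≤ P (2 ^ k * n)) →
        R μ γ n ≤ 2 ^ (γ - 1) / b) ∧
      ((∀ k : ℕ, P (2 ^ k * n) ≤ b * ((2 ^ k * n : ℕ) : ℝ) ^ (-(γ - 1))) →
        2 ^ (γ - 1) / b ≤ R μ γ n)) ∧
    ∀ γ A : ℝ, 0 < A →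
      (Tendsto (fun n : ℕ => R μ γ n) atTop (𝓝 A) ↔
        Tendsto (fun n : ℕ => P n * (n : ℝ) ^ (γ - 1)) atTop (𝓝 (2 ^ (γ - 1) / A))) ∧
      ∀ ε : ℝ, 0 < ε → ε < 1 / 3 →
        (∀ N : ℕ → ℕ, (∀ᶠ m : ℕ in atTop, (m : ℝ) ≤ (N m : ℝ) ^ (1 / 3 - ε)) →
          Tendsto (fun m : ℕ => T (N m) m * ((C m : ℝ) / μ ^ m) ^ 2) atTop (𝓝 1) ∧
          (Tendsto (fun n : ℕ => R μ γ n) atTop (𝓝 A) ↔
            Tendsto (fun m : ℕ => T (N m) m * (m : ℝ) ^ (2 * (γ - 1))) atTop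
              (𝓝 (1 / A ^ 2)))) ∧
        ∀ S : Set ℕ,
          (∀ᶠ n : ℕ in atTop, ∃ m ∈ S, n ≤ m ∧ (m : ℝ) ≤ n + (n : ℝ) ^ (1 / 3 - ε)) →
          Tendsto (fun n : ℕ => R μ γ n) (atTop ⊓ 𝓟 S) (𝓝 A) →
          (∀ δ : ℝ, 0 < δ → ∀ᶠ n : ℕ in atTop,
            A / (5 / μ + δ) ≤ R μ γ n ∧ R μ γ n ≤ (5 / μ + δ) * A) ∧
          ∀ p : ℕ, (∀ m ∈ S, m % 2 = p) →
            Tendsto (fun n : ℕ => R μ γ n) (atTop ⊓ 𝓟 {n | n % 2 = p}) (𝓝 A) := by
  have hC : ∀ n, C n = TH966.KO.c n := fun n => Pool.Agent.H46R2.K3.P.card_eq n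
  have hP : ∀ n, P n = Pool.Agent.R956.Z2.P (fun n => (TH966.KO.c n : ℝ)) n n := by
    intro n
    unfold P Pool.Agent.R956.Z2.P
    rw [hC, hC, two_mul, pow_two]
  have hT : ∀ n m, T n m = Pool.Agent.R956.Z4.T (fun n => (TH966.KO.c n : ℝ)) n m := by
    intro n m
    unfold T Pool.Agent.R956.Z4.T
    rw [hC, hC, hC]
  have hR : ∀ γ n, R TH966.KO.μ γ n =
      Pool.Agent.R956.Z4.R (fun n => (TH966.KO.c n : ℝ)) TH966.KO.μ (γ - 1) n := by
    intro γ n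
    unfold R Pool.Agent.R956.Z4.R
    rw [hC]
  have h := Pool.Agent.R956.Z3.hy
  refine ⟨TH966.KO.μ, TH966.KO.mu_ge, TH966.KO.mu_le, ?_, ?_, ?_⟩
  · simpa only [hC] using TH966.KO.tend
  · intro γ b hb n hn
    simp only [hP, hR]
    exact Pool.Agent.R956.Z4.explicit h hn hb
  · intro γ A hA
    simp only [hP, hR, hT, hC]
    refine ⟨Pool.Agent.R956.Z4.iff_amp h (γ - 1) hA, fun ε hε hε3 => ⟨fun N hN => ⟨?_, ?_⟩,
      fun S hS h1 => ⟨fun δ hδ => ?_, fun p hp => ?_⟩⟩⟩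
    · exact Pool.Agent.R956.Z4.T_tendsto h hε hε3 hN
    · exact Pool.Agent.R956.Z4.iff_T h (γ - 1) hA hε hε3 hN
    · exact Pool.Agent.R956.Z4.sparse_all h (γ - 1) hA hε hε3 hS h1 hδ
    · exact Pool.Agent.R956.Z4.sparse_same h (γ - 1) hA hε hε3 p hp hS h1

end Pool.Agent.Results.MP_794e6e_pr.AmplitudeForms
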