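import Pool.Agent.R956.K11
import Pool.Agent.R956.K5

/-!
Numbers `c_n` of self-avoiding walks on `ℤ³` and the probabilities `P_n = c_{2n} / c_n²` that two
`n`-step walks do not meet: an asymptotic form `P_n ~ B n^(1-γ)` along a set of even lengths with gaps
`o(√n)` implies the asymptotic form of `c_n` along all even `n` and sharp bounds for odd `n`.
-/

set_option autoImplicit false

namespace Pool.Agent.Results.MP_794e6e_pr.DoublingForms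

open Filter Topology

/-- the number of `n`-step self-avoiding nearest-neighbour walks on `ℤ³` from `0` -/
noncomputable def C (n : ℕ) : ℕ :=
  Nat.card {f : Fin (n + 1) → (Fin 3 → ℤ) //
    f 0 = 0 ∧ Function.Injective f ∧
    ∀ i : Fin n, ∑ j : Fin 3, |f i.succ j - f i.castSucc j| = 1}

/-- the probability that two independent `n`-step walks meet at `0` only -/
noncomputable def P (n : ℕ) : ℝ := (C (2 * n) : ℝ) / (C n : ℝ) ^ 2

/-- `c_n / (μ^n n^(γ-1))` -/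
noncomputable def R (μ γ : ℝ) (n : ℕ) : ℝ := (C n : ℝ) / (μ ^ n * (n : ℝ) ^ (γ - 1))

/-- every interval `[n, n + δ √n]`, `n` large, meets `S`, for each `δ > 0` -/
def Gaps (S : Set ℕ) : Prop :=
  ∀ δ : ℝ, 0 < δ → ∀ᶠ n : ℕ in atTop, ∃ m ∈ S, n ≤ m ∧ (m : ℝ) ≤ n + δ * Real.sqrt n

theorem pack : ∃ (c : ℕ → ℝ) (μ : ℝ), (∀ n, (C n : ℝ) = c n) ∧ 77 / 20 ≤ μ ∧ μ ≤ 5 ∧
    Tendsto (fun n : ℕ => c n ^ (1 / (n : ℝ))) atTop (𝓝 μ) ∧ Pool.Agent.Y943.SL.Wk c μ ∧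
    ∀ ε : ℝ, 0 < ε → ∀ᶠ n : ℕ in atTop,
      c (n + 1) / μ ^ (n + 1) ≤ (5 / μ + ε) * (c n / μ ^ n) ∧
      c n / μ ^ n ≤ (5 / μ + ε) * (c (n + 1) / μ ^ (n + 1)) :=
  ⟨fun n => (TH966.KO.c n : ℝ), TH966.KO.μ,
    fun n => congrArg _ (Pool.Agent.H46R2.K3.P.card_eq n), TH966.KO.mu_ge, TH966.KO.mu_le,
    TH966.KO.tend, Pool.Agent.R956.K5.wk3, fun _ hε => Pool.Agent.R956.K5.step Pool.Agent.R956.Z3.hy hε⟩

/-- **Theorem.** On `ℤ³` let `c_n` be the number of `n`-step self-avoiding walks, `μ = lim c_n^(1/n)`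
(so `3.85 ≤ μ ≤ 5`, `5/μ < 1.3`), `P_n = c_{2n} / c_n²` the probability that two independent
`n`-step walks meet at `0` only, and `γ` real. Suppose that `P_n n^(γ-1) → B > 0` along a set of even
numbers with gaps `o(√n)`. Then, with `A = 2^(γ-1) / B`,
(1) `P_n n^(γ-1) → B` and `c_n / (μ^n n^(γ-1)) → A` along all even `n`;
(2) `(c_{n+2} / c_n - μ²) √n → 0` along all even `n`;
(3) for every `ε > 0` and all large `n` of both parities `c_n / (μ^n n^(γ-1))` is between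
`A / (5/μ + ε)` and `(5/μ + ε) A`. -/
theorem result : ∃ μ : ℝ, 77 / 20 ≤ μ ∧ μ ≤ 5 ∧
    Tendsto (fun n : ℕ => (C n : ℝ) ^ (1 / (n : ℝ))) atTop (𝓝 μ) ∧
    ∀ (S : Set ℕ) (γ B : ℝ), (∀ m ∈ S, Even m) → Gaps S → 0 < B →
      Tendsto (fun n : ℕ => P n * (n : ℝ) ^ (γ - 1)) (atTop ⊓ 𝓟 S) (𝓝 B) →
      (Tendsto (fun n : ℕ => P n * (n : ℝ) ^ (γ - 1)) (atTop ⊓ 𝓟 {n | Even n}) (𝓝 B) ∧
        Tendsto (R μ γ) (atTop ⊓ 𝓟 {n | Even n}) (𝓝 (2 ^ (γ - 1) / B))) ∧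
      Tendsto (fun n : ℕ => ((C (n + 2) : ℝ) / C n - μ ^ 2) * Real.sqrt n)
        (atTop ⊓ 𝓟 {n | Even n}) (𝓝 0) ∧
      ∀ ε : ℝ, 0 < ε → ∀ᶠ n : ℕ in atTop,
        2 ^ (γ - 1) / B / (5 / μ + ε) ≤ R μ γ n ∧ R μ γ n ≤ (5 / μ + ε) * (2 ^ (γ - 1) / B) := by
  obtain ⟨c, μ, hC, h1, h2, h3, W, hst⟩ := pack
  have hPn : ∀ n, P n = c (2 * n) / c n ^ 2 := by
    intro n
    unfold P
    rw [hC, hC]
  have hR : ∀ γ n, R μ γ n = c n / μ ^ n / (n : ℝ) ^ (γ - 1) := fun γ n => by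
    unfold R
    rw [hC, div_div]
  have h5 : 1 ≤ 5 / μ := (one_le_div W.hμ).mpr h2
  have hset : ({n : ℕ | Even n} : Set ℕ) = {n | n % 2 = 0} := by
    ext n
    exact Nat.even_iff
  refine ⟨μ, h1, h2, ?_, fun S γ B hev hS hB h => ?_⟩
  · simpa only [hC] using h3
  have h0 : Tendsto (fun n : ℕ => c (2 * n) / c n ^ 2 * (n : ℝ) ^ (γ - 1)) (atTop ⊓ 𝓟 S)
      (𝓝 B) := by
    refine h.congr fun n => ?_
    rw [hPn]
  obtain ⟨g1, g2⟩ := Pool.Agent.R956.K11.form W hev hS hB h0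
  have hA : (0 : ℝ) < 2 ^ (γ - 1) / B := by positivity
  have r1 : Tendsto (fun n : ℕ => c n / μ ^ n / (n : ℝ) ^ (γ - 1)) (atTop ⊓ 𝓟 {n | n % 2 = 0})
      (𝓝 (2 ^ (γ - 1) / B)) := by
    rw [Pool.Agent.R956.K3.par_iff (p := 0) (by norm_num)]
    exact g1
  refine ⟨⟨?_, ?_⟩, ?_, fun ε hε => ?_⟩
  · rw [hset, Pool.Agent.R956.K3.par_iff (p := 0) (by norm_num)]
    refine g2.congr fun n => ?_
    rw [hPn]
    rfl
  · rw [hset]
    refine r1.congr fun n => ?_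
    rw [hR]
  · rw [hset]
    have := Pool.Agent.R956.K3.ratio_form W (show 0 ≤ 1 by norm_num) hA r1
    refine this.congr fun n => ?_
    rw [hC, hC]
  · filter_upwards [Pool.Agent.R956.K4.other W.pos h5 hst (show 0 ≤ 1 by norm_num) hA r1 hε]
      with n hn
    rw [hR]
    exact hn

end Pool.Agent.Results.MP_794e6e_pr.DoublingForms
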