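import Pool.Agent.H726.GB.ConcD
import Pool.Agent.TH232.S3.Iter
import Pool.Agent.H46R2.K3.EQ

/-!
Self-avoiding walks on `ℤ³`.  For two finite self-avoiding paths `U`, `U'` with the same end points
let `N_{U→U'}(ω)` be the number of places where `U` can be replaced by `U'` in the walk `ω`.  Then
`μ^|U| N_{U→U'}(ω) - μ^|U'| N_{U'→U}(ω)` is of order at most `n^(2/3 + o(1))`, with Gaussian tails,
in the uniform `n`-step walk.
-/

set_option autoImplicit false

namespace Pool.Agent.Results.MP_794e6e_pr.LocalBalance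

open Filter Topology

/-- adjacency in `ℤ³` -/
def Adj (p q : Fin 3 → ℤ) : Prop := ∑ j : Fin 3, |q j - p j| = 1

/-- `ω` is an `n`-step self-avoiding nearest-neighbour walk on `ℤ³` from `0` -/
def IsSAW (n : ℕ) (ω : Fin (n + 1) → (Fin 3 → ℤ)) : Prop :=
  ω 0 = 0 ∧ Function.Injective ω ∧ ∀ i : Fin n, Adj (ω i.castSucc) (ω i.succ)

/-- the number of `n`-step self-avoiding walks on `ℤ³` from `0` -/
noncomputable def C (n : ℕ) : ℕ := Nat.card {ω : Fin (n + 1) → (Fin 3 → ℤ) // IsSAW n ω}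

/-- `U` is a finite self-avoiding path on `ℤ³` (with any starting point), given by the list of its
sites. -/
def IsPath (U : List (Fin 3 → ℤ)) : Prop := U ≠ [] ∧ U.Nodup ∧ U.IsChain Adj

/-- `N U U' ω`: the number of `x ∈ ℤ³` such that the translated path `x + U` is a block of
consecutive sites of `ω`, and the sites of `x + U'` which are not on `x + U` are not visited by
`ω`; for two paths with the same end points this is the number of places where `U` can be replaced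
by `U'` in `ω`. -/
noncomputable def N (U U' : List (Fin 3 → ℤ)) {n : ℕ} (ω : Fin (n + 1) → (Fin 3 → ℤ)) : ℕ :=
  Set.ncard {x : Fin 3 → ℤ | U.map (x + ·) <:+: List.ofFn ω ∧ ∀ y ∈ U', y ∉ U → ∀ k, ω k ≠ x + y}

theorem lat : H726.GD.Lat Adj (fun _ => True) where
  step := by
    intro p q h i
    unfold Adj at h
    have h1 : |q i - p i| ≤ ∑ j : Fin 3, |q j - p j| :=
      Finset.single_le_sum (f := fun j => |q j - p j|) (fun _ _ => abs_nonneg _)
        (Finset.mem_univ i)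
    rw [abs_sub_comm]
    omega
  shift := by
    intro x _ p q h
    unfold Adj at h ⊢
    simpa using h

theorem pr {U U' : List (Fin 3 → ℤ)} (hU : IsPath U) (hU' : IsPath U') (h1 : U.head? = U'.head?)
    (h2 : U.getLast? = U'.getLast?) : H726.GD.Pr Adj U U' :=
  ⟨hU.1, hU'.1, h1, h2, hU.2.1, hU'.2.1, hU.2.2, hU'.2.2⟩

theorem N_eq (U U' : List (Fin 3 → ℤ)) {n : ℕ} (ω : Fin (n + 1) → (Fin 3 → ℤ)) :
    H726.GD.NF (fun _ => True) U U' ω = N U U' ω := by
  unfold H726.GD.NF N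
  congr 1
  ext x
  simp only [true_and, Set.mem_ofPred_eq]

theorem C_eq (n : ℕ) : C n = Pool.Agent.H46R2.K3.c n := Pool.Agent.H46R2.K3.P.card_eq n

theorem C_card (n : ℕ) : (H726.GD.Kw Adj n).card = C n := by
  have h := H726.GD.count_filter (H726.GD.rl0 lat) n (fun _ => True)
  simp only [and_true, Finset.filter_true] at h
  rw [h, ← Nat.card_coe_set_eq]
  rfl

/-- growth up to length `2 n` -/
theorem growth : ∃ K : ℝ, ∀ n : ℕ, 3 ≤ n → ∃ H : ℝ,
    (∀ j ≤ 2 * n, (C j : ℝ) ≤ H * Pool.Agent.H46R2.K3.mu ^ j) ∧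
    2 * Real.exp 1 * H ≤ Real.exp (K * (n : ℝ) ^ (1 / 3 : ℝ) *
      Real.exp (K * Real.log (Real.log n) ^ 2)) := by
  obtain ⟨K0, hK0⟩ := Pool.Agent.TH232.S3.c_bound
  obtain ⟨K1, hK1⟩ : ∃ K1 : ℝ, K1 = max K0 0 := ⟨_, rfl⟩
  have hK10 : 0 ≤ K1 := by rw [hK1]; exact le_max_right _ _
  have hK01 : K0 ≤ K1 := by rw [hK1]; exact le_max_left _ _
  have hmu := Pool.Agent.H46R2.K3.P.one_le_mu
  obtain ⟨B, hB⟩ : ∃ B : ℝ, B = 1 + C 0 + C 1 + C 2 := ⟨_, rfl⟩
  have h0 : (0 : ℝ) ≤ C 0 := Nat.cast_nonneg _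
  have h1 : (0 : ℝ) ≤ C 1 := Nat.cast_nonneg _
  have h2 : (0 : ℝ) ≤ C 2 := Nat.cast_nonneg _
  have hB1 : 1 ≤ B := by linarith
  have he1 : 1 ≤ Real.exp 1 := Real.one_le_exp (by norm_num)
  obtain ⟨E, hE⟩ : ∃ E : ℝ, E = 2 * Real.exp 1 * B := ⟨_, rfl⟩
  have hE1 : 1 ≤ E := by rw [hE]; nlinarith
  have hlE : 0 ≤ Real.log E := Real.log_nonneg hE1
  obtain ⟨K, hK⟩ : ∃ K : ℝ, K = Real.log E + 2 * K1 * Real.exp (2 * K1) + 2 * K1 := ⟨_, rfl⟩
  have hKK : 2 * K1 ≤ K := by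
    rw [hK]
    have : 0 ≤ 2 * K1 * Real.exp (2 * K1) := by positivity
    linarith
  have hK0' : 0 ≤ K := by linarith
  refine ⟨K, fun n hn => ?_⟩
  have hn' : (3 : ℝ) ≤ n := by exact_mod_cast hn
  -- logarithms
  have hl3 : 1 ≤ Real.log 3 := by
    rw [Real.le_log_iff_exp_le (by norm_num)]
    have := Real.exp_one_lt_d9
    linarith
  have hln : 1 ≤ Real.log (n : ℝ) := hl3.trans (Real.log_le_log (by norm_num) hn')
  have hlln : 0 ≤ Real.log (Real.log (n : ℝ)) := Real.log_nonneg hln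
  obtain ⟨g, hg⟩ : ∃ g : ℝ, g = K1 * ((2 * n : ℕ) : ℝ) ^ (1 / 3 : ℝ) *
    Real.exp (K1 * Real.log (Real.log ((2 * n : ℕ) : ℝ)) ^ 2) := ⟨_, rfl⟩
  have hg0 : 0 ≤ g := by rw [hg]; positivity
  refine ⟨B * Real.exp g, ?_, ?_⟩
  · intro j hj
    have hex : 1 ≤ Real.exp g := Real.one_le_exp hg0
    have hmj : 1 ≤ Pool.Agent.H46R2.K3.mu ^ j := one_le_pow₀ hmu
    have hBe : B ≤ B * Real.exp g * Pool.Agent.H46R2.K3.mu ^ j := by
      calc B = B * 1 * 1 := by ring
        _ ≤ _ := by gcongr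
    rcases Nat.lt_or_ge j 3 with hj3 | hj3
    · refine le_trans ?_ hBe
      interval_cases j <;> linarith
    · rw [C_eq]
      refine (hK0 j hj3).trans ?_
      have hj' : (3 : ℝ) ≤ j := by exact_mod_cast hj3
      have hjn : (j : ℝ) ≤ ((2 * n : ℕ) : ℝ) := by exact_mod_cast hj
      have hlj : 1 ≤ Real.log (j : ℝ) := hl3.trans (Real.log_le_log (by norm_num) hj')
      have h3 : Real.log (j : ℝ) ≤ Real.log ((2 * n : ℕ) : ℝ) := Real.log_le_log (by linarith) hjn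
      have h4 : Real.log (Real.log (j : ℝ)) ≤ Real.log (Real.log ((2 * n : ℕ) : ℝ)) :=
        Real.log_le_log (by linarith) h3
      have h5 : 0 ≤ Real.log (Real.log (j : ℝ)) := Real.log_nonneg hlj
      have h6 : K0 * (j : ℝ) ^ (1 / 3 : ℝ) * Real.exp (K0 * Real.log (Real.log j) ^ 2) ≤ g := by
        rw [hg]
        gcongr
      calc Pool.Agent.H46R2.K3.mu ^ j * Real.exp (K0 * (j : ℝ) ^ (1 / 3 : ℝ) *
            Real.exp (K0 * Real.log (Real.log j) ^ 2))
          ≤ Pool.Agent.H46R2.K3.mu ^ j * Real.exp g := by gcongr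
        _ = 1 * Real.exp g * Pool.Agent.H46R2.K3.mu ^ j := by ring
        _ ≤ _ := by gcongr
  · have e1 : 2 * Real.exp 1 * (B * Real.exp g) = Real.exp (Real.log E + g) := by
      rw [Real.exp_add, Real.exp_log (by linarith), hE]; ring
    rw [e1, Real.exp_le_exp]
    have hn1 : 1 ≤ (n : ℝ) ^ (1 / 3 : ℝ) := Real.one_le_rpow (by linarith) (by norm_num)
    obtain ⟨x, hx⟩ : ∃ x : ℝ, x = Real.log (Real.log (n : ℝ)) := ⟨_, rfl⟩
    have h2n : Real.log ((2 * n : ℕ) : ℝ) ≤ 2 * Real.log n := by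
      push_cast
      rw [Real.log_mul (by norm_num) (by positivity)]
      have : Real.log 2 ≤ Real.log n := Real.log_le_log (by norm_num) (by linarith)
      linarith
    have h2n1 : 1 ≤ Real.log ((2 * n : ℕ) : ℝ) := by
      refine hln.trans (Real.log_le_log (by linarith) ?_)
      push_cast; linarith
    have hll : Real.log (Real.log ((2 * n : ℕ) : ℝ)) ≤ 1 + x := by
      have h3 := Real.log_le_log (by linarith) h2n
      rw [Real.log_mul (by norm_num) (by positivity), ← hx] at h3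
      have h4 : Real.log 2 ≤ 1 := by
        have := Real.log_two_lt_d9
        linarith
      linarith
    have hll0 : 0 ≤ Real.log (Real.log ((2 * n : ℕ) : ℝ)) := Real.log_nonneg h2n1
    have hsq : Real.log (Real.log ((2 * n : ℕ) : ℝ)) ^ 2 ≤ 2 + 2 * x ^ 2 := by
      have h3 := pow_le_pow_left₀ hll0 hll 2
      nlinarith [sq_nonneg (1 - x)]
    have hroot : ((2 * n : ℕ) : ℝ) ^ (1 / 3 : ℝ) ≤ 2 * (n : ℝ) ^ (1 / 3 : ℝ) := by
      push_cast
      rw [Real.mul_rpow (by norm_num) (by linarith)]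
      apply mul_le_mul_of_nonneg_right _ (by positivity)
      calc (2 : ℝ) ^ (1 / 3 : ℝ) ≤ 2 ^ (1 : ℝ) :=
            Real.rpow_le_rpow_of_exponent_le (by norm_num) (by norm_num)
        _ = 2 := Real.rpow_one _
    have hgle : g ≤ 2 * K1 * Real.exp (2 * K1) * ((n : ℝ) ^ (1 / 3 : ℝ) *
        Real.exp (2 * K1 * x ^ 2)) := by
      rw [hg]
      calc K1 * ((2 * n : ℕ) : ℝ) ^ (1 / 3 : ℝ) *
            Real.exp (K1 * Real.log (Real.log ((2 * n : ℕ) : ℝ)) ^ 2)
          ≤ K1 * (2 * (n : ℝ) ^ (1 / 3 : ℝ)) * Real.exp (K1 * (2 + 2 * x ^ 2)) := by gcongr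
        _ = _ := by
            have : K1 * (2 + 2 * x ^ 2) = 2 * K1 + 2 * K1 * x ^ 2 := by ring
            rw [this, Real.exp_add]; ring
    rw [← hx]
    obtain ⟨T, hT⟩ : ∃ T : ℝ, T = (n : ℝ) ^ (1 / 3 : ℝ) * Real.exp (K * x ^ 2) := ⟨_, rfl⟩
    have hT1 : 1 ≤ T := by
      rw [hT]
      have : 1 ≤ Real.exp (K * x ^ 2) := Real.one_le_exp (by positivity)
      nlinarith
    have hT2 : (n : ℝ) ^ (1 / 3 : ℝ) * Real.exp (2 * K1 * x ^ 2) ≤ T := by
      rw [hT]
      gcongr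
    have h7 : g ≤ 2 * K1 * Real.exp (2 * K1) * T :=
      hgle.trans (mul_le_mul_of_nonneg_left hT2 (by positivity))
    have h8 : Real.log E ≤ Real.log E * T := le_mul_of_one_le_right hlE hT1
    have h9 : K * (n : ℝ) ^ (1 / 3 : ℝ) * Real.exp (K * x ^ 2) =
        Real.log E * T + 2 * K1 * Real.exp (2 * K1) * T + 2 * K1 * T := by
      rw [mul_assoc, ← hT]
      conv_lhs => rw [hK]
      ring
    have h10 : 0 ≤ 2 * K1 * T := by positivity
    linarith

/-- **Theorem.** On `ℤ³` let `μ = lim C_n^(1/n)`. There is a constant `K` such that for all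
self-avoiding paths `U`, `U'` with the same first site and the same last site:
(a) if `|U'| = |U| + s`, then the sum of `N_{U→U'}(ω)` over the `n`-step walks equals the sum of
`N_{U'→U}(ω)` over the `(n+s)`-step walks;
(b) there is `c > 0` such that for the uniform `n`-step self-avoiding walk, all `n ≥ 3`, `t ≥ 0`,
`P_n (|μ^|U| N_{U→U'} - μ^|U'| N_{U'→U}| ≥ t) ≤ exp (K n^(1/3) e^(K (log log n)^2) - c t^2 / n)`. -/
theorem result : ∃ μ K : ℝ, 0 < μ ∧
    Tendsto (fun n : ℕ => (C n : ℝ) ^ (1 / (n : ℝ))) atTop (𝓝 μ) ∧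
    ∀ U U' : List (Fin 3 → ℤ), IsPath U → IsPath U' → U.head? = U'.head? →
      U.getLast? = U'.getLast? →
      (∀ n s : ℕ, U'.length = U.length + s →
        ∑ᶠ ω ∈ {ω : Fin (n + 1) → (Fin 3 → ℤ) | IsSAW n ω}, (N U U' ω : ℝ) =
          ∑ᶠ ω ∈ {ω : Fin (n + s + 1) → (Fin 3 → ℤ) | IsSAW (n + s) ω}, (N U' U ω : ℝ)) ∧
      ∃ c : ℝ, 0 < c ∧ ∀ n : ℕ, 3 ≤ n → ∀ t : ℝ, 0 ≤ t →
        (Nat.card {ω : Fin (n + 1) → (Fin 3 → ℤ) // IsSAW n ω ∧
          t ≤ |μ ^ U.length * N U U' ω - μ ^ U'.length * N U' U ω|} : ℝ) ≤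
          Real.exp (K * (n : ℝ) ^ (1 / 3 : ℝ) * Real.exp (K * Real.log (Real.log n) ^ 2) -
            c * t ^ 2 / n) * C n := by
  obtain ⟨K, hK⟩ := growth
  refine ⟨Pool.Agent.H46R2.K3.mu, K,
    lt_of_lt_of_le one_pos Pool.Agent.H46R2.K3.P.one_le_mu, ?_, ?_⟩
  · simpa only [C_eq] using Pool.Agent.H46R2.K3.P.tendsto_c
  · intro U U' hU hU' hh hl
    refine ⟨fun n s hs => ?_, ?_⟩
    · have h4 := H726.GD.ident lat U U' (pr hU hU' hh hl) n s hs
      rw [H726.GD.fin_sum lat, H726.GD.fin_sum lat] at h4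
      simp only [H726.GD.NL_ofFn, N_eq] at h4
      exact h4
    · obtain ⟨c, hc, h4⟩ := H726.GD.conc lat Pool.Agent.H46R2.K3.P.one_le_mu (fun n => by
        rw [C_card, C_eq]; exact Pool.Agent.H46R2.K3.P.mu_pow_le n) U U' (pr hU hU' hh hl)
      refine ⟨c, hc, fun n hn t ht => ?_⟩
      obtain ⟨H, hH1, hH2⟩ := hK n hn
      have h5 := h4 H n (by omega) (fun j hj => by rw [C_card]; exact hH1 j hj) t ht
      rw [C_card, H726.GD.count_filter (H726.GD.rl0 lat), ← Nat.card_coe_set_eq] at h5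
      simp only [H726.GD.NL_ofFn, N_eq] at h5
      refine le_trans h5 ?_
      have e : c * (t ^ 2 / (n : ℝ)) = c * t ^ 2 / n := by ring
      rw [sub_eq_add_neg, Real.exp_add, e]
      gcongr

end Pool.Agent.Results.MP_794e6e_pr.LocalBalance
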