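import Pool.Agent.R956.K5

/-!
Numbers `c_n` of self-avoiding walks on `ℤ³`: power laws along sparse sets of lengths, and what they
imply for the ratios `c_{n+2} / c_n`.
-/

set_option autoImplicit false

namespace Pool.Agent.Results.MP_794e6e_pr.RatiosSparse

open Filter Topology

/-- the number of `n`-step self-avoiding nearest-neighbour walks on `ℤ³` from `0` -/
noncomputable def C (n : ℕ) : ℕ :=
  Nat.card {f : Fin (n + 1) → (Fin 3 → ℤ) //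
    f 0 = 0 ∧ Function.Injective f ∧
    ∀ i : Fin n, ∑ j : Fin 3, |f i.succ j - f i.castSucc j| = 1}

/-- `c_n / (μ^n n^(γ-1))` -/
noncomputable def R (μ γ : ℝ) (n : ℕ) : ℝ := (C n : ℝ) / (μ ^ n * (n : ℝ) ^ (γ - 1))

/-- every long interval `[n, n + δ √n]` meets `S` -/
def Gaps (δ : ℝ) (S : Set ℕ) : Prop :=
  ∀ᶠ n : ℕ in atTop, ∃ m ∈ S, n ≤ m ∧ (m : ℝ) ≤ n + δ * Real.sqrt n

/-- the gaps of `S` are `o(√(n log n))` -/
def LogGaps (S : Set ℕ) : Prop :=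
  ∀ δ : ℝ, 0 < δ → ∀ᶠ n : ℕ in atTop, ∃ m ∈ S, n ≤ m ∧
    (m : ℝ) ≤ n + δ * Real.sqrt (n * Real.log n)

theorem pack : ∃ (c : ℕ → ℝ) (μ : ℝ), (∀ n, (C n : ℝ) = c n) ∧ 77 / 20 ≤ μ ∧ μ ≤ 5 ∧
    Tendsto (fun n : ℕ => c n ^ (1 / (n : ℝ))) atTop (𝓝 μ) ∧ Pool.Agent.Y943.SL.Wk c μ ∧
    ∀ ε : ℝ, 0 < ε → ∀ᶠ n : ℕ in atTop,
      c (n + 1) / μ ^ (n + 1) ≤ (5 / μ + ε) * (c n / μ ^ n) ∧
      c n / μ ^ n ≤ (5 / μ + ε) * (c (n + 1) / μ ^ (n + 1)) :=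
  ⟨fun n => (TH966.KO.c n : ℝ), TH966.KO.μ,
    fun n => congrArg _ (Pool.Agent.H46R2.K3.P.card_eq n), TH966.KO.mu_ge, TH966.KO.mu_le,
    TH966.KO.tend, Pool.Agent.R956.K5.wk3, fun _ hε => Pool.Agent.R956.K5.step Pool.Agent.R956.Z3.hy hε⟩

/-- **Theorem.** On `ℤ³` let `c_n` be the number of `n`-step self-avoiding walks and
`μ = lim c_n^(1/n)`. The limit exists and `77/20 ≤ μ ≤ 5`, so that `5/μ < 1.3`.
(1) If `A ≤ c_n / (μ^n n^(γ-1)) ≤ B`, `A > 0`, for the large `n` in a set `S` which meets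
`[n, n + δ √n]` for all large `n`, then such bounds, with other constants, hold for all large `n`.
(2) If `log (c_n / μ^n) / log n → γ - 1` along a set with gaps `o(√(n log n))`, then along all `n`, and
`(c_{n+2} / c_n - μ²) √(n / log n) → 0`.
(3) Let `S` be a set of numbers of one parity `p` with gaps `o(√n)`. If `c_n / (μ^n n^(γ-1)) → A > 0`
along `S`, then: this holds along all `n` of this parity; `(c_{n+2} / c_n - μ²) √n → 0` along them;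
and for every `ε > 0` and all large `n` of both parities, `c_n / (μ^n n^(γ-1))` is between
`A / (5/μ + ε)` and `(5/μ + ε) A`. -/
theorem result : ∃ μ : ℝ, 77 / 20 ≤ μ ∧ μ ≤ 5 ∧
    Tendsto (fun n : ℕ => (C n : ℝ) ^ (1 / (n : ℝ))) atTop (𝓝 μ) ∧
    (∀ (S : Set ℕ) (δ : ℝ), 0 < δ → Gaps δ S → ∀ γ A B : ℝ, 0 < A →
      (∀ᶠ n : ℕ in atTop, n ∈ S → A ≤ R μ γ n ∧ R μ γ n ≤ B) →
      ∃ A' B' : ℝ, 0 < A' ∧ 0 < B' ∧ ∀ᶠ n : ℕ in atTop, A' ≤ R μ γ n ∧ R μ γ n ≤ B') ∧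
    (∀ S : Set ℕ, LogGaps S → ∀ γ : ℝ,
      Tendsto (fun n : ℕ => Real.log ((C n : ℝ) / μ ^ n) / Real.log n) (atTop ⊓ 𝓟 S)
        (𝓝 (γ - 1)) →
      Tendsto (fun n : ℕ => Real.log ((C n : ℝ) / μ ^ n) / Real.log n) atTop (𝓝 (γ - 1)) ∧
      Tendsto (fun n : ℕ => ((C (n + 2) : ℝ) / C n - μ ^ 2) * Real.sqrt (n / Real.log n)) atTop
        (𝓝 0)) ∧
    (∀ (p : ℕ) (S : Set ℕ), p ≤ 1 → (∀ m ∈ S, m % 2 = p) → (∀ δ : ℝ, 0 < δ → Gaps δ S) →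
      ∀ γ A : ℝ, 0 < A → Tendsto (R μ γ) (atTop ⊓ 𝓟 S) (𝓝 A) →
      Tendsto (R μ γ) (atTop ⊓ 𝓟 {n | n % 2 = p}) (𝓝 A) ∧
      Tendsto (fun n : ℕ => ((C (n + 2) : ℝ) / C n - μ ^ 2) * Real.sqrt n)
        (atTop ⊓ 𝓟 {n | n % 2 = p}) (𝓝 0) ∧
      ∀ ε : ℝ, 0 < ε → ∀ᶠ n : ℕ in atTop,
        A / (5 / μ + ε) ≤ R μ γ n ∧ R μ γ n ≤ (5 / μ + ε) * A) := by
  obtain ⟨c, μ, hC, h1, h2, h3, W, hst⟩ := pack
  have hR : ∀ γ, R μ γ = fun n : ℕ => c n / μ ^ n / (n : ℝ) ^ (γ - 1) := fun γ => by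
    funext n
    unfold R
    rw [hC, div_div]
  have h5 : 1 ≤ 5 / μ := (one_le_div W.hμ).mpr h2
  refine ⟨μ, h1, h2, ?_, ?_, ?_, ?_⟩
  · simpa only [hC] using h3
  · intro S δ hδ hS γ A B hA h
    simp only [hR] at h ⊢
    exact Pool.Agent.R956.K3.bounds W hδ hS hA h
  · intro S hS γ h
    simp only [hC] at h ⊢
    have h1 := W.expo S hS (γ - 1) h
    exact ⟨h1, Pool.Agent.R956.K3.ratio_expo W h1⟩
  · intro p S hp hpar hS γ A hA h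
    rw [hR] at h ⊢
    simp only [hC]
    have h1 := Pool.Agent.R956.K3.form_one W hp hpar hS hA h
    refine ⟨h1, Pool.Agent.R956.K3.ratio_form W hp hA h1, fun ε hε => ?_⟩
    exact Pool.Agent.R956.K4.other W.pos h5 hst hp hA h1 hε

end Pool.Agent.Results.MP_794e6e_pr.RatiosSparse
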